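import Mathlib

set_option autoImplicit false
open Set Metric Filter Topology
open scoped ENNReal

namespace Pool.Agent.H.MP_32da07_an

abbrev E := EuclideanSpace ℂ (Fin 3)

noncomputable def lempert (D : Set E) (z w : E) : ℝ≥0∞ :=
  ⨅ (f : ℂ → E) (_ : DifferentiableOn ℂ f (ball 0 1)) (_ : MapsTo f (ball 0 1) D) (a : ℂ) (b : ℂ)
    (_ : ‖a‖ < 1) (_ : ‖b‖ < 1) (_ : f a = z) (_ : f b = w),
    ENNReal.ofReal (Real.artanh ‖(a - b) / (1 - (starRingEnd ℂ) a * b)‖)

noncomputable def kob (D : Set E) (z w : E) : ℝ≥0∞ :=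
  ⨅ (n : ℕ) (x : ℕ → E) (_ : x 0 = z) (_ : x (n + 1) = w),
    ∑ i ∈ Finset.range (n + 1), lempert D (x i) (x (i + 1))

noncomputable def g (z : E) : ℝ := ‖z 1‖ * Real.exp (1 / (1 - ‖z 2‖) ^ 2)

def D0 : Set E := {z | ‖z 2‖ < 1 ∧ g z < 1}

def D : Set E := {z | z 0 ≠ 0 ∧ ‖z 0‖ < 1 ∧ z ∈ D0}

lemma co_diff (i : Fin 3) : Differentiable ℂ (fun z : E => z i) :=
  (EuclideanSpace.proj i : E →L[ℂ] ℂ).differentiable

lemma co (i : Fin 3) : Continuous (fun z : E => z i) := (co_diff i).continuous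

lemma g_cont : ContinuousOn g {z | ‖z 2‖ < 1} :=
  (co 1).norm.continuousOn.mul (ContinuousOn.rexp (continuousOn_const.div
    ((continuous_const.sub (co 2).norm).pow 2).continuousOn fun _ hz =>
      pow_ne_zero _ (sub_pos.2 hz).ne'))

lemma D_open : IsOpen D :=
  (isOpen_ne_fun (co 0) continuous_const).inter ((isOpen_lt (co 0).norm continuous_const).inter
    (g_cont.isOpen_inter_preimage (isOpen_lt (co 2).norm continuous_const) isOpen_Iio))

lemma D0_mono {z w : E} (hz : z ∈ D0) (h1 : ‖w 1‖ ≤ ‖z 1‖) (h2 : ‖w 2‖ ≤ ‖z 2‖) : w ∈ D0 := by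
  refine ⟨h2.trans_lt hz.1, lt_of_le_of_lt ?_ hz.2⟩
  have := sub_pos.2 hz.1
  unfold g
  gcongr

lemma D_conn : IsConnected D := by
  have h : IsConnected {z : E | (z 0).re < 0 ∧ z ∈ D0} := by
    refine (StarConvex.isPathConnected (a := !₂[-1, 0, 0]) (s := {z : E | (z 0).re < 0 ∧ z ∈ D0}) (fun z hz a b ha hb hab => ⟨?_,
      D0_mono hz.2 ?_ ?_⟩) ⟨by simp, by simp, by simp [g]⟩).isConnected
    · have := hz.1
      simp only [PiLp.add_apply, PiLp.smul_apply, Complex.add_re, Complex.smul_re, smul_eq_mul]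
      simp
      rcases ha.eq_or_lt with e | e
      · subst e; rw [zero_add] at hab; subst hab; linarith
      · nlinarith
    all_goals
      simp [abs_of_nonneg hb]
      exact mul_le_of_le_one_left (norm_nonneg _) (by linarith)
  have c : Continuous fun z : E => (!₂[Complex.exp (z 0), z 1, z 2] : E) := by
    have := co 0; have := co 1; have := co 2
    fun_prop
  convert h.image _ c.continuousOn
  ext w
  constructor
  · rintro ⟨h0, h1, h2⟩
    refine ⟨!₂[Complex.log (w 0), w 1, w 2], ⟨?_, h2⟩, ?_⟩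
    · simpa [Complex.log_re] using Real.log_neg (norm_pos_iff.2 h0) h1
    · ext i; fin_cases i <;> simp [Complex.exp_log h0]
  · rintro ⟨z, ⟨h1, h2⟩, rfl⟩
    exact ⟨by simp, by simpa [Complex.norm_exp] using h1, h2⟩

lemma co_lt {z : E} (hz : z ∈ D) (i : Fin 3) : ‖z i‖ ≤ 1 := by
  fin_cases i
  · exact hz.2.1.le
  · exact (le_mul_of_one_le_right (norm_nonneg _) (Real.one_le_exp (by positivity))).trans hz.2.2.2.le
  · exact hz.2.2.1.le

lemma D_bdd : Bornology.IsBounded D := by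
  refine isBounded_iff_forall_norm_le.2 ⟨√3, fun z hz => ?_⟩
  rw [EuclideanSpace.norm_eq, Fin.sum_univ_three]
  have := pow_le_one₀ (n := 2) (norm_nonneg _) (co_lt hz 0)
  have := pow_le_one₀ (n := 2) (norm_nonneg _) (co_lt hz 1)
  have := pow_le_one₀ (n := 2) (norm_nonneg _) (co_lt hz 2)
  exact Real.sqrt_le_sqrt (by linarith)

lemma bd {K : Set E} (hK : IsCompact K) {u : E → ℝ} (hg : ContinuousOn u K) {c : ℝ}
    (h : ∀ w ∈ K, u w < c) : ∃ M < c, ∀ w ∈ K, u w ≤ M := by
  rcases K.eq_empty_or_nonempty with rfl | hne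
  · exact ⟨c - 1, by linarith, by simp⟩
  obtain ⟨x, hx, hm⟩ := hK.exists_isMaxOn hne hg
  exact ⟨u x, h x hx, fun w hw => hm hw⟩

lemma hull (K : Set E) (hKD : K ⊆ D) (hK : IsCompact K) :
    IsCompact {z ∈ D | ∀ f : E → ℂ, DifferentiableOn ℂ f D → ∀ M : ℝ, (∀ w ∈ K, ‖f w‖ ≤ M) →
      ‖f z‖ ≤ M} := by
  set H := {z ∈ D | ∀ f : E → ℂ, DifferentiableOn ℂ f D → ∀ M : ℝ, (∀ w ∈ K, ‖f w‖ ≤ M) →
      ‖f z‖ ≤ M} with hH
  have key : ∀ z ∈ closure H, ∀ f : E → ℂ, DifferentiableOn ℂ f D → ContinuousAt f z →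
      ∀ M : ℝ, (∀ w ∈ K, ‖f w‖ ≤ M) → ‖f z‖ ≤ M := fun z hz f hf hc M hM =>
    ContinuousWithinAt.closure_le hz hc.norm.continuousWithinAt continuousWithinAt_const
      fun y hy => hy.2 f hf M hM
  have cl : closure H ⊆ D := fun z hz => by
    obtain ⟨r0, hr0, h0⟩ := bd hK (co 0).norm.continuousOn fun w hw => (hKD hw).2.1
    obtain ⟨r2, hr2, h2⟩ := bd hK (co 2).norm.continuousOn fun w hw => (hKD hw).2.2.1
    obtain ⟨r1, hr1, h1⟩ := bd hK (g_cont.mono fun w hw => (hKD hw).2.2.1) fun w hw => (hKD hw).2.2.2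
    have dinv : DifferentiableOn ℂ (fun w : E => (w 0)⁻¹) D :=
      (co_diff 0).differentiableOn.inv fun w hw => hw.1
    obtain ⟨M, hM⟩ := hK.exists_bound_of_continuousOn (dinv.continuousOn.mono hKD)
    have a2 := (key z hz _ (co_diff 2).differentiableOn (co 2).continuousAt r2 h2).trans_lt hr2
    refine ⟨fun e => ?_, (key z hz _ (co_diff 0).differentiableOn (co 0).continuousAt r0 h0).trans_lt
      hr0, a2, ?_⟩
    · have : (1 : ℝ) ≤ M * ‖z 0‖ := ContinuousWithinAt.closure_le hz continuousWithinAt_const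
        (continuous_const.mul (co 0).norm).continuousWithinAt fun y hy => by
          have := hy.2 _ dinv M hM
          rwa [norm_inv, inv_le_iff_one_le_mul₀ (norm_pos_iff.2 hy.1.1)] at this
      rw [e] at this
      norm_num at this
    · obtain ⟨μ, hμ, hμ'⟩ := Complex.exists_norm_eq_mul_self (z 2)
      have ne : ∀ w : E, ‖w 2‖ < 1 → 1 - ‖w 2‖ ≤ ‖1 - μ * w 2‖ := fun w _ => by
        simpa [hμ] using norm_sub_norm_le 1 (μ * w 2)
      have df : ∀ w : E, ‖w 2‖ < 1 → DifferentiableAt ℂ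
          (fun w : E => w 1 * Complex.exp (1 / (1 - μ * w 2) ^ 2)) w := fun w hw => by
        have := norm_pos_iff.1 ((sub_pos.2 hw).trans_le (ne w hw))
        have := co_diff 1 w
        have := co_diff 2 w
        fun_prop (disch := simpa)
      have := key z hz _ (fun w hw => (df w hw.2.2.1).differentiableWithinAt) (df z a2).continuousAt
        r1 fun w hw => le_trans (by
          have h3 := sub_pos.2 (hKD hw).2.2.1
          rw [norm_mul, g]
          refine mul_le_mul_of_nonneg_left ((Complex.norm_exp_le_exp_norm _).trans ?_) (norm_nonneg _)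
          rw [norm_div, norm_one, norm_pow]
          have := ne w (hKD hw).2.2.1
          gcongr) (h1 w hw)
      refine lt_of_le_of_lt (le_of_eq_of_le ?_ this) hr1
      rw [norm_mul, g, ← hμ', ← Complex.norm_exp_ofReal]
      congr 3; push_cast; rfl
  exact Metric.isCompact_of_isClosed_isBounded (isClosed_of_closure_subset fun z hz =>
    ⟨cl hz, fun f hf => key z hz f hf (hf.continuousOn.continuousAt (D_open.mem_nhds (cl hz)))⟩)
    (D_bdd.subset fun z hz => hz.1)

/-- the real parameter -/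
noncomputable def s (m : ℕ) : ℝ := 1 - 1 / ((m : ℝ) + 1)

lemma s_mem (m : ℕ) : 0 ≤ s m ∧ s m < 1 := by
  have : 1 / ((m : ℝ) + 1) ≤ 1 := by rw [div_le_one (by positivity)]; linarith [m.cast_nonneg (α := ℝ)]
  have : 0 < 1 / ((m : ℝ) + 1) := by positivity
  unfold s; constructor <;> linarith

lemma s_ball (m : ℕ) : (s m : ℂ) ∈ ball (0 : ℂ) 1 := by
  simpa [abs_of_nonneg (s_mem m).1] using (s_mem m).2

lemma kob_le {φ : ℂ → ℂ} (hφ : DifferentiableOn ℂ φ (ball 0 1))
    (h : ∀ l ∈ ball (0 : ℂ) 1, (φ l).re < 0) (m : ℕ) :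
    (!₂[Complex.exp (φ (s m)), 0, s m] : E) ∈ D ∧
    kob D !₂[Complex.exp (φ 0), 0, 0] !₂[Complex.exp (φ (s m)), 0, s m] ≤
      ENNReal.ofReal (1 / 2 * Real.log (2 * (m + 1))) ∧
    0 < infDist (!₂[Complex.exp (φ (s m)), 0, s m] : E) (frontier D) ∧
    infDist (!₂[Complex.exp (φ (s m)), 0, s m] : E) (frontier D) ≤ Real.exp (-(m + 1) ^ 2) := by
  have hm : MapsTo (fun l => (!₂[Complex.exp (φ l), 0, l] : E)) (ball 0 1) D := fun l hl =>
    ⟨by simp, by simpa [Complex.norm_exp] using h l hl, by simpa using hl, by simp [g]⟩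
  have mem := hm (s_ball m)
  refine ⟨mem, ?_, ?_⟩
  · refine iInf_le_of_le 0 <| iInf_le_of_le (fun i => if i = 0 then !₂[Complex.exp (φ 0), 0, 0]
      else !₂[Complex.exp (φ (s m)), 0, s m]) <| iInf_le_of_le (by simp) <|
      iInf_le_of_le (by simp) ?_
    simp only [zero_add, Finset.range_one, Finset.sum_singleton, if_true, one_ne_zero, if_false]
    refine iInf_le_of_le (fun l => (!₂[Complex.exp (φ l), 0, l] : E)) <| iInf_le_of_le
      (differentiableOn_euclidean.2 fun i => by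
        fin_cases i
        · simpa using hφ.cexp
        · simp
        · simpa using! differentiableOn_id) <| iInf_le_of_le hm <|
      iInf_le_of_le 0 <| iInf_le_of_le (s m) <| iInf_le_of_le (by simp) <|
      iInf_le_of_le (by simpa using s_ball m) <| iInf_le_of_le rfl <|
      iInf_le_of_le rfl <| ENNReal.ofReal_le_ofReal ?_
    obtain ⟨a, b⟩ := s_mem m
    rw [map_zero, zero_mul, sub_zero, div_one, zero_sub, norm_neg, Complex.norm_real,
      Real.norm_of_nonneg a, Real.artanh_eq_half_log ⟨by linarith, b.le⟩]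
    have := sub_pos.2 b
    gcongr
    rw [div_le_iff₀ this, show 2 * ((m : ℝ) + 1) * (1 - s m) = 2 by unfold s; field_simp; ring]
    linarith
  · set w : E := !₂[Complex.exp (φ (s m)), (Real.exp (-(m + 1) ^ 2) : ℝ), s m] with hw
    have n : w ∈ Dᶜ := fun h => by
      have h2 := h.2.2.2
      simp only [g, hw, PiLp.toLp_apply, Matrix.cons_val_one, Matrix.cons_val_zero, Matrix.cons_val,
        Complex.norm_real, Real.norm_of_nonneg (s_mem m).1, Real.norm_of_nonneg (Real.exp_pos _).le,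
        ← Real.exp_add] at h2
      rw [show -((m : ℝ) + 1) ^ 2 + 1 / (1 - s m) ^ 2 = 0 by unfold s; field_simp; ring] at h2
      simp at h2
    obtain ⟨y, hy, e⟩ := exists_mem_frontier_infDist_compl_eq_dist mem
      (fun h => n (h ▸ mem_univ _))
    refine ⟨(isClosed_frontier.notMem_iff_infDist_pos ⟨y, hy⟩).1 fun h => ?_, ?_⟩
    · rw [D_open.frontier_eq] at h; exact h.2 mem
    refine (infDist_le_dist_of_mem hy).trans (e ▸ (infDist_le_dist_of_mem n).trans ?_)
    rw [EuclideanSpace.dist_eq, Fin.sum_univ_three]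
    simp [hw, -Complex.ofReal_exp, Real.sqrt_sq (Real.exp_pos _).le]

lemma s_tend : Tendsto (fun m => (s m : ℂ)) atTop (𝓝 1) := by
  have := (tendsto_one_div_add_atTop_nhds_zero_nat (𝕜 := ℝ)).const_sub 1
  rw [sub_zero] at this
  exact (Complex.continuous_ofReal.tendsto 1).comp this

lemma tend {u : ℕ → ℂ} {c : ℂ} (h : Tendsto u atTop (𝓝 c)) :
    Tendsto (fun m => (!₂[u m, 0, s m] : E)) atTop (𝓝 !₂[c, 0, 1]) := by
  have cc : Continuous fun p : ℂ × ℂ => (!₂[p.1, 0, p.2] : E) := by fun_prop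
  exact (cc.tendsto (c, 1)).comp (h.prodMk_nhds s_tend)

lemma lim0 : Tendsto (fun m : ℕ => 1 / 2 * Real.log 2 + -(1 / 2 * Real.log (m + 1))) atTop atBot :=
  tendsto_atBot_add_const_left _ _ (tendsto_neg_atTop_atBot.comp ((Real.tendsto_log_atTop.comp
    (tendsto_natCast_atTop_atTop.atTop_add tendsto_const_nhds)).const_mul_atTop (by norm_num)))

lemma fin {k : ℝ≥0∞} {d : ℝ} (m : ℕ) (h1 : k ≤ ENNReal.ofReal (1 / 2 * Real.log (2 * (m + 1))))
    (h2 : 0 < d) (h3 : d ≤ Real.exp (-(m + 1) ^ 2)) :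
    k.toReal + 1 / 2 * Real.log d ≤ 1 / 2 * Real.log 2 + -(1 / 2 * Real.log (m + 1)) ∧
    k.toReal - 1 / 2 * Real.log (-Real.log d) ≤ 1 / 2 * Real.log 2 + -(1 / 2 * Real.log (m + 1)) := by
  have m0 : (0 : ℝ) ≤ m := m.cast_nonneg
  have a := ENNReal.toReal_le_of_le_ofReal (mul_nonneg (by norm_num) (Real.log_nonneg
    (by linarith))) h1
  rw [Real.log_mul two_ne_zero (by positivity)] at a
  have b := Real.log_le_log h2 h3
  rw [Real.log_exp] at b
  have c := Real.log_le_log (by positivity) (le_neg.1 b)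
  rw [Real.log_pow] at c
  have e := Real.log_le_sub_one_of_pos (show (0 : ℝ) < m + 1 by positivity)
  push_cast at c
  constructor <;> nlinarith

/-- covering map of the punctured disc -/
noncomputable def φ2 (l : ℂ) : ℂ := -(1 / (1 - l))

lemma φ2_ne {l : ℂ} (hl : l ∈ ball (0 : ℂ) 1) : 0 < (1 - l).re := by
  have := (Complex.re_le_norm l).trans_lt (mem_ball_zero_iff.1 hl)
  simpa using this

lemma φ2_diff : DifferentiableOn ℂ φ2 (ball 0 1) :=
  ((differentiableOn_const _).div (by fun_prop) fun l hl e => by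
    simpa [e] using φ2_ne hl).neg

lemma φ2_re (l : ℂ) (hl : l ∈ ball (0 : ℂ) 1) : (φ2 l).re < 0 := by
  have := φ2_ne hl
  rw [φ2, Complex.neg_re, neg_lt_zero, one_div, Complex.inv_re]
  exact div_pos this (Complex.normSq_pos.2 fun e => by simp [e] at this)

lemma φ2_tend : Tendsto (fun m => Complex.exp (φ2 (s m))) atTop (𝓝 0) := by
  have h : Tendsto (fun m : ℕ => Real.exp (-((m : ℝ) + 1))) atTop (𝓝 0) :=
    Real.tendsto_exp_neg_atTop_nhds_zero.comp
      (tendsto_natCast_atTop_atTop.atTop_add tendsto_const_nhds)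
  refine ((Complex.continuous_ofReal.tendsto 0).comp h).congr fun m => ?_
  simp [φ2, s]

lemma front {c : ℂ} {z : ℕ → E} (h : ∀ m, z m ∈ D) (t : Tendsto z atTop (𝓝 !₂[c, 0, 1])) :
    (!₂[c, 0, 1] : E) ∈ frontier D := by
  rw [D_open.frontier_eq]
  exact ⟨mem_closure_of_tendsto t (Eventually.of_forall h), fun h => by simpa using h.2.2.1⟩

end Pool.Agent.H.MP_32da07_an
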